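import Pool.Agent.H5.OR.Targets

/-!
# MP_e1fd52_al, board org_modules, row SC: the special edge of the line
-/

set_option autoImplicit false

namespace Pool.Agent.H35.ORg

open _root_.ORg

variable {X : Type}

/-- the images of an edge fixed by a power of `w` -/
theorem fin_edges {S : GTree (FreeGroup X)} {w : FreeGroup X} {L d : ℕ} {u : ℤ → FreeGroup X}
    {a1 b1 : S.V} (hL : 0 < L) (hd : 0 < d) (hper : ∀ i k : ℤ, u (i + L * k) = w ^ k * u i)
    (h0 : u 0 = 1) (ha : (w ^ d) • a1 = a1) (hb : (w ^ d) • b1 = b1) :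
    {p : S.V × S.V | ∃ g, Thr u g 0 ∧ p = (g • a1, g • b1)}.Finite := by
  have hfix : ∀ (s : S.V), (w ^ d) • s = s → ∀ n : ℤ, ((w ^ d) ^ n) • s = s := by
    intro s hs n
    have h1 : w ^ d ∈ MulAction.stabilizer (FreeGroup X) s := hs
    exact Subgroup.zpow_mem _ h1 n
  have key : ∀ j : ℤ, ∃ r ∈ Set.Ico (0 : ℤ) (L * d), ∀ s : S.V, (w ^ d) • s = s →
      (u j)⁻¹ • s = (u r)⁻¹ • s := by
    intro j
    have hLd : (0 : ℤ) < L * d := by positivity
    refine ⟨j % (L * d), ⟨Int.emod_nonneg _ hLd.ne', Int.emod_lt_of_pos _ hLd⟩, fun s hs => ?_⟩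
    have h1 : j = j % (L * d) + L * (d * (j / (L * d))) := by
      have := Int.emod_add_mul_ediv j (L * d)
      rw [← mul_assoc]
      exact this.symm
    have h2 : u j = w ^ ((d : ℤ) * (j / (L * d))) * u (j % (L * d)) := by
      conv_lhs => rw [h1]
      exact hper _ _
    rw [h2, mul_inv_rev, mul_smul]
    congr 1
    rw [zpow_mul, zpow_natCast, inv_smul_eq_iff]
    exact (hfix s hs _).symm
  refine ((Set.finite_Ico (0 : ℤ) (L * d)).image
    (fun r => ((u r)⁻¹ • a1, (u r)⁻¹ • b1))).subset ?_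
  rintro p ⟨g, ⟨j, hj⟩, rfl⟩
  have h3 : ∃ j, g = (u j)⁻¹ := by
    rcases hj with ⟨h1, -⟩ | ⟨-, h1⟩
    · exact ⟨j, eq_inv_of_mul_eq_one_left (h1.trans h0)⟩
    · exact ⟨j + 1, eq_inv_of_mul_eq_one_left (h1.trans h0)⟩
  obtain ⟨j', rfl⟩ := h3
  obtain ⟨r, hr, h4⟩ := key j'
  exact ⟨r, hr, by rw [h4 a1 ha, h4 b1 hb]⟩

theorem pf_SC (TA : T_TA) (TE : T_TE) (CL : T_CL) (ML : T_ML) (SB : T_SB) : T_SC := by
  classical
  intro X S w L lt u a b x0 d hLn hroot hab hd hst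
  obtain ⟨-, -, -, hper, -⟩ := CL X w L lt u hLn
  obtain ⟨-, -, hTA3, hTA4, -⟩ := TA (FreeGroup X) S
  have hwd : w ^ d ∈ Subgroup.zpowers (w ^ d) := Subgroup.mem_zpowers _
  have hfa : (w ^ d) • a = a := ((hst _).2 hwd).1
  have hfb : (w ^ d) • b = b := ((hst _).2 hwd).2
  obtain ⟨a1, b1, h12, hred⟩ : ∃ a1 b1 : S.V, ((a1 = a ∧ b1 = b) ∨ (a1 = b ∧ b1 = a)) ∧
      S.red a1 := by
    by_cases h : S.red a
    · exact ⟨a, b, Or.inl ⟨rfl, rfl⟩, h⟩
    · refine ⟨b, a, Or.inr ⟨rfl, rfl⟩, ?_⟩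
      by_contra h2
      exact h ((S.red_adj a b hab).2 h2)
  have hfa1 : (w ^ d) • a1 = a1 := by
    rcases h12 with ⟨h, -⟩ | ⟨h, -⟩ <;> rw [h] <;> assumption
  have hfb1 : (w ^ d) • b1 = b1 := by
    rcases h12 with ⟨-, h⟩ | ⟨-, h⟩ <;> rw [h] <;> assumption
  have hadj1 : S.T.Adj a1 b1 := by
    rcases h12 with ⟨h, h'⟩ | ⟨h, h'⟩
    · rw [h, h']; exact hab
    · rw [h, h']; exact hab.symm
  have hst1 : ∀ g : FreeGroup X, g • a1 = a1 → g • b1 = b1 → g ∈ Subgroup.zpowers w := by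
    intro g h1 h2
    have h3 : g ∈ Subgroup.zpowers (w ^ d) := by
      apply (hst g).1
      rcases h12 with ⟨h, h'⟩ | ⟨h, h'⟩
      · rw [h] at h1; rw [h'] at h2; exact ⟨h1, h2⟩
      · rw [h] at h1; rw [h'] at h2; exact ⟨h2, h1⟩
    obtain ⟨n, rfl⟩ := Subgroup.mem_zpowers_iff.1 h3
    exact Subgroup.zpow_mem _ (Subgroup.pow_mem _ (Subgroup.mem_zpowers w) d) n
  have hfin := fin_edges (S := S) hLn.pos hd hper hLn.zero hfa1 hfb1
  obtain ⟨p, hp, hside⟩ := TE (FreeGroup X) S _ hfin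
    ⟨((1 : FreeGroup X) • a1, (1 : FreeGroup X) • b1), 1, ⟨0, Or.inl ⟨one_mul _, one_mul _⟩⟩, rfl⟩
    (by
      rintro p ⟨g, -, rfl⟩
      exact ⟨S.adj g _ _ hadj1, (S.red_smul g a1).2 hred⟩)
  obtain ⟨g0, ⟨i0, hi0⟩, rfl⟩ := hp
  have hJ : ∀ g, Thr u g i0 → Thr u (g0 * g) 0 := by
    rintro g ⟨j, hj⟩
    refine ⟨j, ?_⟩
    rw [mul_assoc, mul_assoc]
    rcases hi0 with ⟨h1, h2⟩ | ⟨h1, h2⟩ <;> rcases hj with ⟨h3, h4⟩ | ⟨h3, h4⟩
    · exact Or.inl ⟨by rw [h3]; exact h1, by rw [h4]; exact h2⟩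
    · exact Or.inr ⟨by rw [h3]; exact h2, by rw [h4]; exact h1⟩
    · exact Or.inr ⟨by rw [h3]; exact h1, by rw [h4]; exact h2⟩
    · exact Or.inl ⟨by rw [h3]; exact h2, by rw [h4]; exact h1⟩
  have hne : ∀ g, g ∉ Subgroup.zpowers w →
      ((g0 * g) • a1, (g0 * g) • b1) ≠ (g0 • a1, g0 • b1) := by
    intro g hg h
    rw [Prod.mk.injEq, mul_smul, mul_smul] at h
    exact hg (hst1 g (smul_left_cancel g0 h.1) (smul_left_cancel g0 h.2))
  -- the sides of `g • a1`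
  have hmain : ∃ c : Bool, ∀ g, g ∉ Subgroup.zpowers w → Thr u g i0 →
      decide (g • a1 ∈ S.hs a b) = c := by
    have hT : ∀ g : FreeGroup X, g • a1 ∈ S.hs a b → decide (g • a1 ∈ S.hs a b) = true := fun g h =>
      decide_eq_true h
    have hF : ∀ g : FreeGroup X, g • a1 ∈ S.hs b a → decide (g • a1 ∈ S.hs a b) = false := fun g h =>
      decide_eq_false fun h' => (hTA4 a b hab _).2 ⟨h', h⟩
    rcases hside with hside | hside
    · have h1 : ∀ g, g ∉ Subgroup.zpowers w → Thr u g i0 → g • a1 ∈ S.hs a1 b1 := by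
        intro g hg hthr
        have h2 := hside _ ⟨g0 * g, hJ g hthr, rfl⟩ (hne g hg)
        rw [mul_smul] at h2
        exact (hTA3 g0 a1 b1 _).1 h2
      rcases h12 with ⟨h, h'⟩ | ⟨h, h'⟩
      · refine ⟨true, fun g hg hthr => hT g ?_⟩
        have := h1 g hg hthr
        rw [h, h'] at this
        rw [h]
        exact this
      · refine ⟨false, fun g hg hthr => hF g ?_⟩
        have := h1 g hg hthr
        rw [h, h'] at this
        rw [h]
        exact this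
    · have h1 : ∀ g, g ∉ Subgroup.zpowers w → Thr u g i0 → g • a1 ∈ S.hs b1 a1 := by
        intro g hg hthr
        have h2 := hside _ ⟨g0 * g, hJ g hthr, rfl⟩ (hne g hg)
        rw [mul_smul] at h2
        exact (hTA3 g0 b1 a1 _).1 h2
      rcases h12 with ⟨h, h'⟩ | ⟨h, h'⟩
      · refine ⟨false, fun g hg hthr => hF g ?_⟩
        have := h1 g hg hthr
        rw [h, h'] at this
        rw [h]
        exact this
      · refine ⟨true, fun g hg hthr => hT g ?_⟩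
        have := h1 g hg hthr
        rw [h, h'] at this
        rw [h]
        exact this
  obtain ⟨c, hc⟩ := hmain
  refine ⟨c, i0, fun g hg hthr => ?_⟩
  have h1 := SB X S w L lt u a b x0 a1 d g hLn hab hd hfa1 (by
    rintro k hk ⟨h2, h3⟩
    have h4 := (hst _).1 ⟨h2, h3⟩
    obtain ⟨n, hn⟩ := Subgroup.mem_zpowers_iff.1 h4
    apply hg
    refine ML X w g k (d * n) hroot hk ?_
    rw [← hn, zpow_mul, zpow_natCast])
  have h5 := hc g hg hthr
  convert h1 using 1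
  rw [← h5]

end Pool.Agent.H35.ORg
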